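import Pool.Agent.K1H23.SR.Pos

set_option autoImplicit false

/-!
Shift-cyclic polynomials in `D_t(𝔻^d)`: reduction to irreducible polynomials, and the complete
answer for the irreducible factors `Q` which are self-reflective, that is, `z^n conj(Q(1/conj z))`
is a constant multiple of `Q(z)`, `n` the vector of the degrees of `Q`: such a `Q` which depends on
exactly `k` variables is shift-cyclic if and only if it has no zero in `𝔻^d` and `t k ≤ 1`.
-/

namespace Pool.Agent.Results.MP_f1c2ec_an.SelfReflectiveFactors

open Pool.Agent.H650R3.Cyc Pool.Agent.K1H23.SR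

open Classical in
/-- Let `P ≠ 0` be a polynomial in `d` variables and `t` real. `P` is shift-cyclic in `D_t(𝔻^d)` if
and only if every irreducible factor `Q` of `P` satisfies: `Q` has no zero in `𝔻^d` and
`t * (number of variables which occur in Q) ≤ 1`, in the case that `Q` is self-reflective; `Q` is
shift-cyclic, in the case that `Q` is not self-reflective. -/
theorem result (d : ℕ) (t : ℝ) (P : MvPolynomial (Fin d) ℂ) (hP : P ≠ 0) :
    ShiftCyclic t (P : MvPowerSeries (Fin d) ℂ) ↔
      ∀ Q : MvPolynomial (Fin d) ℂ, Irreducible Q → Q ∣ P →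
        if SelfReflective Q then ZeroFree Q ∧ t * Q.vars.card ≤ 1
        else ShiftCyclic t (Q : MvPowerSeries (Fin d) ℂ) := by
  constructor
  · intro h Q hQ hd
    have hQc := cyclic_of_dvd hd h
    split_ifs with hsr
    · have hz := zeroFree_of_cyclic hQc
      refine ⟨hz, ?_⟩
      by_contra ht
      push Not at ht
      exact not_cyclic_of_selfReflective hQ hz hsr ht hQc
    · exact hQc
  · intro h
    apply cyclic_of_approx
    apply approx_of_factors P hP
    intro Q hQ hd
    have h1 := h Q hQ hd
    split_ifs at h1 with hsr
    · exact cyc_main (vars_pos hQ) h1.2 Q le_rfl h1.1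
    · exact h1.2 1 (mem_one t)

end Pool.Agent.Results.MP_f1c2ec_an.SelfReflectiveFactors
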